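import Mathlib
import Pool.Agent.R957.Mmpp.Defs

/-! Q2 of MP_af8c33_pr: the squared coefficient of variation of the inter-event time of every
Markov-modulated Poisson process is at least one. -/

namespace Pool.Agent.Results.MP_af8c33_pr.CvSqGeOne

open Matrix Pool.R957.Mmpp

variable {p : ℕ} (M : MMPP p)

/-- The event-stationary vector `alpha = pi D / (pi D 1)`. -/
noncomputable def alpha (piv : Fin p → ℝ) : Fin p → ℝ :=
  (piv ⬝ᵥ (M.D *ᵥ 1))⁻¹ • (piv ᵥ* M.D)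

/-- First moment of `T_1^alpha`, `alpha (-C)^{-1} 1`. -/
noncomputable def mean (piv : Fin p → ℝ) : ℝ := alpha M piv ⬝ᵥ ((-M.C)⁻¹ *ᵥ 1)

/-- Second moment of `T_1^alpha`, `2 alpha (-C)^{-2} 1`. -/
noncomputable def secondMoment (piv : Fin p → ℝ) : ℝ :=
  2 * (alpha M piv ⬝ᵥ ((-M.C)⁻¹ *ᵥ ((-M.C)⁻¹ *ᵥ 1)))

/-- The squared coefficient of variation `Var (T_1^alpha) / (E T_1^alpha)^2`. -/
noncomputable def cvSq (piv : Fin p → ℝ) : ℝ :=
  (secondMoment M piv - mean M piv ^ 2) / mean M piv ^ 2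

theorem rowsum_mul (v : Fin p → ℝ) (i : Fin p) :
    ∑ j, M.Q i j * v j = ∑ j, M.Q i j * (v j - v i) := by
  simp only [mul_sub, Finset.sum_sub_distrib]
  rw [← Finset.sum_mul, M.gen.rowsum i]; ring

theorem Q_mul_nonneg {v : Fin p → ℝ} {i : Fin p} (h : ∀ j, v i ≤ v j) (j : Fin p) :
    0 ≤ M.Q i j * (v j - v i) := by
  by_cases hij : i = j
  · subst hij; simp
  · exact mul_nonneg (M.gen.offdiag i j hij) (sub_nonneg.2 (h j))

theorem C_mulVec (v : Fin p → ℝ) (i : Fin p) :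
    (M.C *ᵥ v) i = ∑ j, M.Q i j * v j - M.lam i * v i := by
  rw [MMPP.C, Matrix.sub_mulVec, MMPP.D, Pi.sub_apply, Matrix.mulVec_diagonal]
  rfl

theorem ker_aux {v : Fin p → ℝ} (hv : M.C *ᵥ v = 0) {i : Fin p} (hmin : ∀ j, v i ≤ v j)
    (hneg : v i < 0) : False := by
  -- all states reachable from `i` have the same value
  have key : ∀ a, v a = v i → M.lam a = 0 ∧ ∀ b, 0 < M.Q a b → v b = v i := by
    intro a ha
    have hmin' : ∀ j, v a ≤ v j := fun j => ha ▸ hmin j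
    have h0 : ∑ j, M.Q a j * (v j - v a) = M.lam a * v a := by
      have := congrFun hv a
      rw [C_mulVec, rowsum_mul] at this
      simp only [Pi.zero_apply] at this
      linarith
    have h1 : 0 ≤ ∑ j, M.Q a j * (v j - v a) :=
      Finset.sum_nonneg fun j _ => Q_mul_nonneg M hmin' j
    have h2 : M.lam a * v a ≤ 0 :=
      mul_nonpos_of_nonneg_of_nonpos (M.lam_nonneg a) (by rw [ha]; exact hneg.le)
    have h3 : M.lam a * v a = 0 := le_antisymm h2 (h0 ▸ h1)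
    refine ⟨?_, ?_⟩
    · rcases mul_eq_zero.1 h3 with h | h
      · exact h
      · rw [ha] at h; exact absurd h hneg.ne
    · intro b hb
      have h4 : ∑ j, M.Q a j * (v j - v a) = 0 := by rw [h0, h3]
      have h5 := (Finset.sum_eq_zero_iff_of_nonneg
        (fun j _ => Q_mul_nonneg M hmin' j)).1 h4 b (Finset.mem_univ b)
      rcases mul_eq_zero.1 h5 with h | h
      · exact absurd h hb.ne'
      · linarith
  have all : ∀ b, v b = v i := by
    intro b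
    have hr := M.gen.irred i b
    induction hr with
    | refl => rfl
    | tail _ hbc ih => exact (key _ ih).2 _ hbc
  obtain ⟨k, hk⟩ := M.lam_ne
  exact hk (key k (all k)).1

include M in
theorem p_pos : Nonempty (Fin p) := ⟨M.lam_ne.choose⟩

theorem isUnit_C : IsUnit M.C := by
  have := p_pos M
  rw [← Matrix.mulVec_injective_iff_isUnit]
  intro v w hvw
  have hz : M.C *ᵥ (v - w) = 0 := by
    rw [Matrix.mulVec_sub, sub_eq_zero]; exact hvw
  have hz' : M.C *ᵥ (w - v) = 0 := by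
    rw [Matrix.mulVec_sub, sub_eq_zero]; exact hvw.symm
  obtain ⟨i, hi⟩ := Finite.exists_min (v - w)
  obtain ⟨i', hi'⟩ := Finite.exists_min (w - v)
  have h1 : 0 ≤ (v - w) i := by
    by_contra h
    exact ker_aux M hz hi (not_le.1 h)
  have h2 : 0 ≤ (w - v) i' := by
    by_contra h
    exact ker_aux M hz' hi' (not_le.1 h)
  funext j
  have h3 := hi j
  have h4 := hi' j
  simp only [Pi.sub_apply] at *
  linarith

theorem negC_inv : (-M.C)⁻¹ = -(M.C⁻¹) := by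
  have hdet : IsUnit M.C.det := (Matrix.isUnit_iff_isUnit_det _).1 (isUnit_C M)
  refine Matrix.inv_eq_right_inv ?_
  rw [neg_mul_neg, Matrix.mul_nonsing_inv _ hdet]

/-- `x = (-C)^{-1} 1`. -/
noncomputable def x : Fin p → ℝ := (-M.C)⁻¹ *ᵥ 1

theorem C_x : M.C *ᵥ x M = -1 := by
  have hdet : IsUnit M.C.det := (Matrix.isUnit_iff_isUnit_det _).1 (isUnit_C M)
  rw [x, negC_inv, Matrix.neg_mulVec, Matrix.mulVec_neg, Matrix.mulVec_mulVec,
    Matrix.mul_nonsing_inv _ hdet, Matrix.one_mulVec]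

theorem x_eq (i : Fin p) : M.lam i * x M i = 1 + ∑ j, M.Q i j * x M j := by
  have := congrFun (C_x M) i
  rw [C_mulVec] at this
  simp only [Pi.neg_apply, Pi.one_apply] at this
  linarith

theorem x_pos (i : Fin p) : 0 < x M i := by
  have := p_pos M
  obtain ⟨k, hk⟩ := Finite.exists_min (x M)
  have h1 : 0 ≤ ∑ j, M.Q k j * x M j := by
    rw [rowsum_mul]
    exact Finset.sum_nonneg fun j _ => Q_mul_nonneg M hk j
  have h2 := x_eq M k
  have h3 : 0 < M.lam k * x M k := by linarith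
  have h4 : 0 < x M k := by
    by_contra h
    exact absurd h3 (not_lt.2 (mul_nonpos_of_nonneg_of_nonpos (M.lam_nonneg k) (not_lt.1 h)))
  exact lt_of_lt_of_le h4 (hk i)

theorem log_bound (i : Fin p) :
    ∑ j, M.Q i j * Real.log (x M j) ≤ (∑ j, M.Q i j * x M j) / x M i := by
  rw [rowsum_mul M (fun j => Real.log (x M j)), rowsum_mul M (x M), Finset.sum_div]
  refine Finset.sum_le_sum fun j _ => ?_
  by_cases hij : i = j
  · subst hij; simp
  · rw [mul_div_assoc]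
    refine mul_le_mul_of_nonneg_left ?_ (M.gen.offdiag i j hij)
    rw [← Real.log_div (x_pos M j).ne' (x_pos M i).ne', sub_div, div_self (x_pos M i).ne']
    exact Real.log_le_sub_one_of_pos (div_pos (x_pos M j) (x_pos M i))

theorem pi_Q {piv : Fin p → ℝ} (h : M.IsStat piv) (f : Fin p → ℝ) :
    ∑ i, piv i * ∑ j, M.Q i j * f j = 0 := by
  have h1 : piv ⬝ᵥ (M.Q *ᵥ f) = 0 := by
    rw [Matrix.dotProduct_mulVec, h.stat, zero_dotProduct]
  simpa [dotProduct, Matrix.mulVec] using h1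

theorem main {piv : Fin p → ℝ} (h : M.IsStat piv) :
    1 ≤ (∑ i, piv i * M.lam i) * ∑ i, piv i * x M i := by
  have hA : ∑ i, piv i / x M i ≤ ∑ i, piv i * M.lam i := by
    have h1 : ∀ i, M.lam i = 1 / x M i + (∑ j, M.Q i j * x M j) / x M i := by
      intro i
      rw [← add_div, ← x_eq, mul_div_assoc, div_self (x_pos M i).ne', mul_one]
    have h2 : 0 ≤ ∑ i, piv i * ((∑ j, M.Q i j * x M j) / x M i) := by
      rw [← pi_Q M h (fun j => Real.log (x M j))]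
      exact Finset.sum_le_sum fun i _ => mul_le_mul_of_nonneg_left (log_bound M i) (h.nonneg i)
    calc ∑ i, piv i / x M i ≤ ∑ i, piv i / x M i + ∑ i, piv i * ((∑ j, M.Q i j * x M j) / x M i) :=
          le_add_of_nonneg_right h2
      _ = ∑ i, piv i * M.lam i := by
          rw [← Finset.sum_add_distrib]
          refine Finset.sum_congr rfl fun i _ => ?_
          conv_rhs => rw [h1 i]
          ring
  have hx : 0 ≤ ∑ i, piv i * x M i :=
    Finset.sum_nonneg fun i _ => mul_nonneg (h.nonneg i) (x_pos M i).le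
  have hCS : (∑ i, piv i) ^ 2 ≤ (∑ i, piv i / x M i) * ∑ i, piv i * x M i := by
    refine Finset.sum_sq_le_sum_mul_sum_of_sq_le_mul _ (fun i _ => ?_) (fun i _ => ?_)
      (fun i _ => ?_)
    · exact div_nonneg (h.nonneg i) (x_pos M i).le
    · exact mul_nonneg (h.nonneg i) (x_pos M i).le
    · have := (x_pos M i).ne'
      exact le_of_eq (by field_simp)
  rw [h.sum_one, one_pow] at hCS
  exact hCS.trans (mul_le_mul_of_nonneg_right hA hx)

theorem D_one (piv : Fin p → ℝ) : piv ⬝ᵥ (M.D *ᵥ 1) = ∑ i, piv i * M.lam i := by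
  simp [MMPP.D, dotProduct, Matrix.mulVec, Matrix.diagonal_apply]

theorem pi_C {piv : Fin p → ℝ} (h : M.IsStat piv) : piv ᵥ* M.C = -(piv ᵥ* M.D) := by
  rw [MMPP.C, Matrix.vecMul_sub, h.stat, zero_sub]

theorem pi_C_one {piv : Fin p → ℝ} (h : M.IsStat piv) :
    piv ⬝ᵥ (M.C *ᵥ 1) = -∑ i, piv i * M.lam i := by
  rw [Matrix.dotProduct_mulVec, pi_C M h, neg_dotProduct, ← Matrix.dotProduct_mulVec, D_one]

theorem pi_Cinv_one (piv : Fin p → ℝ) :
    piv ⬝ᵥ (M.C⁻¹ *ᵥ 1) = -∑ i, piv i * x M i := by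
  have : M.C⁻¹ *ᵥ 1 = -x M := by
    rw [x, negC_inv, Matrix.neg_mulVec, neg_neg]
  rw [this, dotProduct_neg]; rfl

theorem product_ge {piv : Fin p → ℝ} (h : M.IsStat piv) :
    1 ≤ (piv ⬝ᵥ (M.C *ᵥ 1)) * (piv ⬝ᵥ (M.C⁻¹ *ᵥ 1)) := by
  rw [pi_C_one M h, pi_Cinv_one, neg_mul_neg]
  exact main M h

theorem alpha_inv {piv : Fin p → ℝ} (h : M.IsStat piv) (v : Fin p → ℝ) :
    alpha M piv ⬝ᵥ ((-M.C)⁻¹ *ᵥ v) = (piv ⬝ᵥ (M.D *ᵥ 1))⁻¹ * (piv ⬝ᵥ v) := by
  have hdet : IsUnit M.C.det := (Matrix.isUnit_iff_isUnit_det _).1 (isUnit_C M)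
  have h1 : piv ᵥ* M.D = -(piv ᵥ* M.C) := by rw [pi_C M h, neg_neg]
  rw [alpha, smul_dotProduct, smul_eq_mul, h1, negC_inv, Matrix.neg_mulVec, neg_dotProduct,
    dotProduct_neg, neg_neg, ← Matrix.dotProduct_mulVec, Matrix.mulVec_mulVec,
    Matrix.mul_nonsing_inv _ hdet, Matrix.one_mulVec]

theorem lam_bar_pos {piv : Fin p → ℝ} (h : M.IsStat piv) : 0 < piv ⬝ᵥ (M.D *ᵥ 1) := by
  have h1 := main M h
  rw [D_one]
  have h2 : 0 ≤ ∑ i, piv i * M.lam i :=
    Finset.sum_nonneg fun i _ => mul_nonneg (h.nonneg i) (M.lam_nonneg i)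
  rcases h2.lt_or_eq with h3 | h3
  · exact h3
  · rw [← h3, zero_mul] at h1; linarith

theorem cvSq_eq {piv : Fin p → ℝ} (h : M.IsStat piv) :
    cvSq M piv + 1 = 2 * ((piv ⬝ᵥ (M.C *ᵥ 1)) * (piv ⬝ᵥ (M.C⁻¹ *ᵥ 1))) := by
  have hpos := lam_bar_pos M h
  have hone : piv ⬝ᵥ (1 : Fin p → ℝ) = 1 := by
    rw [← h.sum_one]; simp [dotProduct]
  have hm : mean M piv = (piv ⬝ᵥ (M.D *ᵥ 1))⁻¹ := by
    rw [mean, alpha_inv M h, hone, mul_one]
  have hs : secondMoment M piv = 2 * ((piv ⬝ᵥ (M.D *ᵥ 1))⁻¹ * ∑ i, piv i * x M i) := by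
    rw [secondMoment, alpha_inv M h]; rfl
  rw [cvSq, hm, hs, pi_C_one M h, pi_Cinv_one, neg_mul_neg, ← D_one]
  field_simp
  ring

/-- For every MMPP (any order, any irreducible generator, any rates) with stationary vector
`piv`: `C` is invertible, the squared coefficient of variation of the inter-event time satisfies
`c^2 + 1 = 2 (pi C 1)(pi C^{-1} 1)`, `(pi C 1)(pi C^{-1} 1) ≥ 1` and `c^2 ≥ 1`. -/
theorem result : ∀ (p : ℕ) (M : MMPP p) (piv : Fin p → ℝ), M.IsStat piv →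
    IsUnit M.C ∧
    cvSq M piv + 1 = 2 * ((piv ⬝ᵥ (M.C *ᵥ 1)) * (piv ⬝ᵥ (M.C⁻¹ *ᵥ 1))) ∧
    1 ≤ (piv ⬝ᵥ (M.C *ᵥ 1)) * (piv ⬝ᵥ (M.C⁻¹ *ᵥ 1)) ∧
    1 ≤ cvSq M piv := by
  intro p M piv h
  refine ⟨isUnit_C M, cvSq_eq M h, product_ge M h, ?_⟩
  have h1 := cvSq_eq M h
  have h2 := product_ge M h
  linarith

end Pool.Agent.Results.MP_af8c33_pr.CvSqGeOne
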